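import Pool.Agent.Q165.Coin.Leaves
import Pool.Agent.Q165.Coin.Conv

set_option autoImplicit false

/-!
# MP_61130f_an: the map of a capped cylinder is integrable only for circles

The curve `γ` (`StrictlyConvexCurve`), the phase cylinder, the billiard map `T₁`, the map `T₂`
(`cylinderMap`) and rotational invariant curves are defined in `Pool/Agent/H738R2/CylStmt.lean`,
integrability in `Pool/Agent/W714/Coin/Defs.lean`.
-/

namespace Pool.Agent.Results.MP_61130f_an.OnlyCircles

open Pool.Agent.H738R2.Cyl Pool.Agent.W714.Coin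

/-- Let `γ` be a `C^∞` strictly convex closed curve of length `L`, parametrised by arc length.  There
is exactly one billiard map `T₁` of `γ`, and for every `d > 0` the map `T = T₂ ∘ T₁` of the phase
cylinder is integrable if and only if `γ` is a circle. -/
theorem result (γ : ℝ → ℂ) (L : ℝ) (hγ : StrictlyConvexCurve γ L) :
    (∃! T₁ : PhaseCylinder L → PhaseCylinder L, IsBilliardMap γ L T₁) ∧
      ∀ (d : ℝ) (T₁ : PhaseCylinder L → PhaseCylinder L), 0 < d → IsBilliardMap γ L T₁ →
        (IsIntegrable (cylinderMap L d ∘ T₁) ↔ ∃ (c : ℂ) (R : ℝ), 0 < R ∧ ∀ s, ‖γ s - c‖ = R) := by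
  refine ⟨⟨bmap hγ, isBilliardMap_bmap hγ, fun T hT => eq_bmap hγ hT⟩, ?_⟩
  intro d T₁ hd hT
  rw [eq_bmap hγ hT]
  constructor
  · intro hI
    exact Pool.Agent.Q165.Coin.circle_of_equal_angles hγ
      (Pool.Agent.Q165.Coin.equal_angles hγ hd hI)
  · intro hC
    exact Pool.Agent.Q165.Coin.integrable_of_circle hγ hC d

end Pool.Agent.Results.MP_61130f_an.OnlyCircles
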